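import Pool.Agent.Q283.FT.Stm4
import Pool.Agent.Q150.EN.LAWX

/-!
# Project FT (helper283), job FLAW: the joint law of the 2-Selmer groups (assembly)
-/

set_option autoImplicit false

namespace Pool.Agent.Q265.FT

open NumberField IsDedekindDomain Filter Topology Finset WeierstrassCurve Module
open Pool.Agent.Q283.LQ (Sm Box Nest nS)
open Pool.Agent.Q7.LK
open Pool.Agent.Q283.EN (P_BASE P_LOC Alt BB)
open Pool.Agent.Q283.FT
open Pool.Agent.Q150.EN (nest_mono fn ineq1)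
open Q44.JQ (lawc)

theorem rt_twi {F : Type} [Field F] {e : Fin 3 → F} (h : Rt e) {D : F} (hD : D ≠ 0) : Rt (twi D e) where
  inj := fun a b hab => h.inj (mul_left_cancel₀ hD hab)
  sum := by
    have h1 := h.sum
    simp only [twi]
    linear_combination D * h1

/-- the table of a tuple -/
noncomputable def tabq {F : Type} [Field F] [NumberField F] {f k : ℕ} (ζ : F) (u : Fin f → F)
    (π : HeightOneSpectrum (𝓞 F) → F) (q : Fin k → HeightOneSpectrum (𝓞 F)) : Tab 2 f k :=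
  (fun j l => sy 2 ζ (q j) (u l), fun x => sy 2 ζ (q x.1.2) (π (q x.1.1)))

theorem tb_tabq {F : Type} [Field F] [NumberField F] {f k : ℕ} (ζ : F) (u : Fin f → F)
    (π : HeightOneSpectrum (𝓞 F) → F) (q : Fin k → HeightOneSpectrum (𝓞 F)) : Tb ζ u π (tabq ζ u π q) q :=
  ⟨fun _ _ => rfl, fun _ => rfl⟩

open Classical in
/-- summation over the tables -/
theorem sum_tab {f k : ℕ} (ψ : Fin f → ZMod 2) (n : Tab 2 f k → ℕ) (C : ℝ)
    (h : ∀ φ : Fin k → Fin f → ZMod 2,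
      ∑ t : {x : Fin k × Fin k // x.1 < x.2} → ZMod 2, (n (φ, t) : ℝ) ≤
        C * (Fintype.card ({x : Fin k × Fin k // x.1 < x.2} → ZMod 2) : ℝ)) :
    ∑ τ ∈ univ.filter (fun τ : Tab 2 f k => ∑ j, (1 : ZMod 2) • τ.1 j = ψ), (n τ : ℝ) ≤
      C * ((univ.filter (fun τ : Tab 2 f k => ∑ j, (1 : ZMod 2) • τ.1 j = ψ)).card : ℝ) := by
  have h1 : (univ.filter (fun τ : Tab 2 f k => ∑ j, (1 : ZMod 2) • τ.1 j = ψ)) =
      (univ.filter (fun φ : Fin k → Fin f → ZMod 2 => ∑ j, (1 : ZMod 2) • φ j = ψ)) ×ˢ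
        (univ : Finset ({x : Fin k × Fin k // x.1 < x.2} → ZMod 2)) := by
    ext τ
    simp only [mem_filter, mem_univ, true_and, mem_product, and_true]
  rw [h1, sum_product, card_product, card_univ]
  refine (sum_le_sum fun φ _ => h φ).trans ?_
  rw [sum_const, nsmul_eq_mul]
  push_cast
  exact le_of_eq (by ring)

theorem pow_two_four {n a b : ℕ} (h : 2 ^ n = 4 * a * b) : ∃ m, n = m + 2 := by
  have h1 : 2 ^ 2 ∣ 2 ^ n := by
    rw [h, mul_assoc]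
    exact Dvd.intro _ rfl
  have h2 : 2 ≤ n := (Nat.pow_dvd_pow_iff_le_right (by norm_num)).1 h1
  exact ⟨n - 2, by omega⟩

open Classical in
theorem flaw (hTBL : S_TBL) (hTPA : S_TPA) (hTUB : S_TUB) (hTRM : S_TRM) (hADJ : S_ADJ) (hG0 : S_G0)
    (hSXX : S_SXX) (hFUL : S_FUL) (hFIT : S_FIT) (hGDS : S_GDS) (hLOK : S_LOK) (hDCE : S_DCE)
    (hCNT2 : S_CNT2) (hTRF : Pool.Agent.Q283.EN.S_TRF) : S_FLAW := by
  intro F _ _ i ζ hi hζ PB PL t ht κ _ e hRt hNF hMt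
  have : Fact (Nat.Prime 2) := ⟨Nat.prime_two⟩
  obtain ⟨y1, hy1⟩ := hG0 F i ζ hi hζ PB PL t ht
  choose y2 hy2 using fun l => hGDS F (e l) (hRt l)
  refine ⟨max y1 (univ.sup y2), fun y hy D0 hD0 => ?_⟩
  obtain ⟨f, u, r, π, hB, hFrm, hf, hf1, hfin⟩ := hy1 y (le_trans (le_max_left _ _) hy)
  have hgd : ∀ l, ∀ v : HeightOneSpectrum (𝓞 F), ¬ Sm y v → Gd v (e l) := fun l =>
    hy2 l y (le_trans (Finset.le_sup (mem_univ l)) (le_trans (le_max_right _ _) hy))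
  obtain ⟨hd1, hd2, hd3⟩ := hDCE F ζ hζ y f u r π hB
  choose cc hcc using fun l => hd1 (e l) (hRt l) (hgd l)
  have hinj : ∀ l, Function.Injective (cc l) := fun l => hd2 (e l) (cc l) (hRt l) (hcc l) (hNF l)
  have hpair : ∀ l l', l ≠ l' → ¬ ∃ σ : Equiv.Perm (Fin 3), ∀ m, cc l m = cc l' (σ m) := fun l l' hl =>
    hd3 (e l) (e l') (cc l) (cc l') (hRt l) (hRt l') (hcc l) (hcc l') (hMt l l' hl)
  obtain ⟨⟨ψ, w⟩, hψ, _⟩ := hB.cls D0 hD0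
  simp only at hψ
  choose 𝓛 hMem hOk using fun l => hLOK F i ζ hi hζ t ht y f u r π hB hFrm hf hfin (e l) (cc l) (hRt l) (hcc l)
    D0 ψ w hD0 hψ ⟨0, hf1⟩
  -- the number of the classes
  have key : ∀ (k : ℕ) (q : Fin k → HeightOneSpectrum (𝓞 F)), Function.Injective q → (∀ i, ¬ Sm y (q i)) →
      ∀ τ : Tab 2 f k, Tb ζ u π τ q → ∀ D : F, Fits 2 y D0 (fun _ => 1) q D → ∀ (l : κ) (N : ℕ),
      HasN2 (SC (twi D (e l))) N ↔ N = nSel (dj ⟨0, hf1⟩ (cc l) w (𝓛 l)) τ := by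
    intro k q hq hqs τ hτ D hD l N
    have h1 : SC (twi D (e l)) = CondP y (fun v => AX v (twi D0 (e l))) (e l) D := by
      funext a b
      exact propext (hFUL F i hi (e l) (hRt l) y (hgd l) D0 D hD0 hD.ne hD.loc a b)
    rw [h1]
    exact hSXX F i ζ hi hζ y f u r π hB (e l) (cc l) (hRt l) (hcc l) (fun v => AX v (twi D0 (e l))) (𝓛 l) (hMem l)
      D0 ψ w hD0 hψ ⟨0, hf1⟩ k q hq hqs τ hτ D hD N
  refine ⟨fun l => ((finrank (ZMod 2) (dj ⟨0, hf1⟩ (cc l) w (𝓛 l)).pm : ℕ) : ZMod 2), ?_, ?_, ?_⟩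
  · intro D hD hDl l
    obtain ⟨k, q, hq, hqs, hfit⟩ := hFIT F y D0 D hD0 hD hDl
    obtain ⟨n, hn, hpar⟩ := hTPA f (dj ⟨0, hf1⟩ (cc l) w (𝓛 l)) ψ (hOk l) k (tabq ζ u π q)
    have h1 : HasN2 (SC (twi D (e l))) (2 ^ n) := (key k q hq hqs _ (tb_tabq ζ u π q) D hfit l (2 ^ n)).2 hn.symm
    obtain ⟨_, h2⟩ := hCNT2 F i hi (twi D (e l)) (rt_twi (hRt l) hD) (2 ^ n) h1
    obtain ⟨m, rfl⟩ := pow_two_four h2
    refine ⟨m, h1, Eq.trans ?_ hpar⟩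
    have h3 : (2 : ZMod 2) = 0 := rfl
    push_cast
    rw [h3, add_zero]
  · intro rr ε hε
    have hAdj := hADJ f κ ⟨0, hf1⟩ cc w 𝓛 hinj hpair
    obtain ⟨k0, hk0⟩ := hTBL f κ ⟨0, hf1⟩ (fun l => dj ⟨0, hf1⟩ (cc l) w (𝓛 l)) ψ (fun _ => rfl) hOk hAdj rr (ε / 2)
      (by positivity)
    refine ⟨max k0 1, fun k hk => ?_⟩
    have hk1 : 1 ≤ k := (le_max_right _ _).trans hk
    have hT1 := hk0 k ((le_max_left _ _).trans hk)
    refine nest_mono k _ _ (fun X hX => ?_) (hTRF 2 F ζ hζ y f u r π _ hB D0 ψ w hD0 hψ k (fun _ => 1) hk1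
      (fun _ => one_ne_zero) (ε / 2) (by positivity))
    obtain ⟨hfinB, hpos, htab, hP⟩ := hX
    refine ⟨hfinB, hpos, ?_⟩
    have h1 := hP (fun τ => ∀ l, nSel (dj ⟨0, hf1⟩ (cc l) w (𝓛 l)) τ = 4 * 2 ^ rr l)
    have hset : {q ∈ (Box y X : Set (Fin k → HeightOneSpectrum (𝓞 F))) | (∃ D, Fits 2 y D0 (fun _ => 1) q D) ∧
          ∀ D, Fits 2 y D0 (fun _ => 1) q D → ∀ l, HasN2 (SC (twi D (e l))) (2 ^ (rr l + 2))} =
        {q ∈ (Box y X : Set (Fin k → HeightOneSpectrum (𝓞 F))) | (∃ D, Fits 2 y D0 (fun _ => 1) q D) ∧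
            ∃ τ, Tb ζ u π τ q ∧ ∀ l, nSel (dj ⟨0, hf1⟩ (cc l) w (𝓛 l)) τ = 4 * 2 ^ rr l} := by
      ext q
      constructor
      · rintro ⟨hq, ⟨D, hD⟩, hall⟩
        refine ⟨hq, ⟨D, hD⟩, tabq ζ u π q, tb_tabq ζ u π q, fun l => ?_⟩
        have h2 := (key k q hq.1 (fun j => (hq.2 j).1) _ (tb_tabq ζ u π q) D hD l _).1 (hall D hD l)
        rw [← h2, pow_add, mul_comm]
        norm_num
      · rintro ⟨hq, hD, τ, hτ, hall⟩
        refine ⟨hq, hD, fun D hD l => ?_⟩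
        refine (key k q hq.1 (fun j => (hq.2 j).1) τ hτ D hD l _).2 ?_
        rw [hall l, pow_add, mul_comm]
        norm_num
    rw [hset]
    obtain ⟨N, hN⟩ : ∃ N : ℝ, N = ({q ∈ (Box y X : Set (Fin k → HeightOneSpectrum (𝓞 F))) |
      ∃ D, Fits 2 y D0 (fun _ => 1) q D}.ncard : ℝ) := ⟨_, rfl⟩
    obtain ⟨T, hT⟩ : ∃ T : ℝ, T = ((univ.filter (fun τ : Tab 2 f k => ∑ j, (1 : ZMod 2) • τ.1 j = ψ)).card : ℝ) :=
      ⟨_, rfl⟩
    have hTpos : 0 < T := by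
      rw [hT, Nat.cast_pos, Finset.card_pos]
      refine ⟨(fun j => if j = ⟨0, hk1⟩ then ψ else 0, 0), ?_⟩
      rw [mem_filter]
      refine ⟨mem_univ _, ?_⟩
      simp only
      rw [Finset.sum_eq_single (⟨0, hk1⟩ : Fin k)]
      · rw [if_pos rfl, one_smul]
      · intro j _ hj
        rw [if_neg hj, smul_zero]
      · intro h
        exact absurd (mem_univ _) h
    simp only [fn] at hT hT1 h1
    rw [← hN] at hpos h1 ⊢
    rw [← hT] at hT1 h1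
    exact ineq1 hTpos hpos h1 hT1 (show ε / 2 + ε / 2 ≤ ε by linarith)
  · obtain ⟨C, hC⟩ := hTUB f
    refine ⟨C + 1, fun l k hk1 => ?_⟩
    have hsum := sum_tab (k := k) ψ (fun τ => nSel (dj ⟨0, hf1⟩ (cc l) w (𝓛 l)) τ) C
      (fun φ => hC ⟨0, hf1⟩ (cc l) w (𝓛 l) k φ)
    have h0 := hTRM F ζ hζ y f u r π _ hB D0 ψ w hD0 hψ k hk1 (fun τ => nSel (dj ⟨0, hf1⟩ (cc l) w (𝓛 l)) τ) C hsum
    refine nest_mono k _ _ (fun X hX => ?_) h0
    intro B N hB1 hB2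
    refine hX B N hB1 (fun q hq => ?_) (fun q hq => ?_)
    · obtain ⟨D, hD, _⟩ := hB2 q hq
      exact ⟨D, hD⟩
    · obtain ⟨D, hD, hN⟩ := hB2 q hq
      have hqB := hB1 q hq
      exact ⟨tabq ζ u π q, tb_tabq ζ u π q,
        (key k q hqB.1 (fun j => (hqB.2 j).1) _ (tb_tabq ζ u π q) D hD l _).1 hN⟩

end Pool.Agent.Q265.FT
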