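import Pool.Agent.Q283.FT.Stm4

/-!
# Project FT (helper283), job LOK: the local data of a twist
-/

set_option autoImplicit false

namespace Pool.Agent.Q265.FTL

open NumberField IsDedekindDomain Filter Topology Finset WeierstrassCurve Module
open Pool.Agent.Q283.LQ (Sm Box Nest nS)
open Pool.Agent.Q7.LK
open Pool.Agent.Q283.EN (P_BASE P_LOC Alt BB Hi)
open Pool.Agent.Q283.FT

theorem rt_twi {F : Type} [Field F] {e : Fin 3 → F} (h : Rt e) {D : F} (hD : D ≠ 0) : Rt (twi D e) where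
  inj := fun a b hab => h.inj (mul_left_cancel₀ hD hab)
  sum := by
    have h1 := h.sum
    simp only [twi]
    linear_combination D * h1

theorem df_twi {F : Type} [Field F] (e : Fin 3 → F) (D : F) (l : Fin 3) : df (twi D e) l = D * df e l := by
  fin_cases l <;> simp [df, twi, mul_sub]

theorem df_ne {F : Type} [Field F] {e : Fin 3 → F} (h : Rt e) (l : Fin 3) : df e l ≠ 0 := by
  have h01 : e 0 ≠ e 1 := fun h' => absurd (h.inj h') (by decide)
  have h02 : e 0 ≠ e 2 := fun h' => absurd (h.inj h') (by decide)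
  have h12 : e 1 ≠ e 2 := fun h' => absurd (h.inj h') (by decide)
  fin_cases l
  · simpa [df] using sub_ne_zero.2 h12
  · simpa [df] using sub_ne_zero.2 h02
  · simpa [df] using sub_ne_zero.2 h01

section

variable {F : Type} [Field F] [NumberField F]

omit [NumberField F] in
/-- the sum over the small places -/
theorem sum_small {y : ℕ} (hfin : {v : HeightOneSpectrum (𝓞 F) | Sm y v}.Finite) (g : HeightOneSpectrum (𝓞 F) → ℕ) :
    ∑ᶠ v : {v : HeightOneSpectrum (𝓞 F) // Sm y v}, g v.1 = ∑ v ∈ hfin.toFinset, g v := by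
  rw [← finsum_mem_eq_finite_toFinset_sum g hfin]
  exact finsum_subtype_eq_finsum_cond (fun v => Sm y v)

omit [NumberField F] in
theorem nS_eq {y : ℕ} (hfin : {v : HeightOneSpectrum (𝓞 F) | Sm y v}.Finite) : nS F y = hfin.toFinset.card := by
  unfold nS
  rw [← Set.ncard_eq_toFinset_card _ hfin, ← Nat.card_coe_set_eq]
  rfl

/-- the number of the classes -/
theorem sum_val {y : ℕ} (hy : 2 ≤ y) (hfin : {v : HeightOneSpectrum (𝓞 F) | Sm y v}.Finite)
    (hv : InfinitePlace.nrComplexPlaces F ≤ ∑ᶠ v : HeightOneSpectrum (𝓞 F), dv 2 v / 2) :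
    2 * (InfinitePlace.nrComplexPlaces F + nS F y) ≤
      ∑ᶠ v : {v : HeightOneSpectrum (𝓞 F) // Sm y v}, (2 * (dv 2 v.1 / 2) + 2) := by
  rw [sum_small hfin (fun v => 2 * (dv 2 v / 2) + 2), sum_add_distrib, ← mul_sum, sum_const, nS_eq hfin]
  have h1 : ∑ᶠ v : HeightOneSpectrum (𝓞 F), dv 2 v / 2 = ∑ v ∈ hfin.toFinset, dv 2 v / 2 := by
    refine finsum_eq_sum_of_support_subset _ fun v hv => ?_
    rw [Set.Finite.coe_toFinset]
    by_contra hns
    apply hv
    have h2 : dv 2 v = 0 := by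
      unfold dv
      exact if_neg fun h2 => hns ⟨2, Nat.prime_two, hy, h2⟩
    show dv 2 v / 2 = 0
    rw [h2]
  rw [h1] at hv
  rw [smul_eq_mul]
  omega

/-- squares do not change the symbol -/
theorem hil_sq (hB : S_BAS) {ζ : F} {t : HeightOneSpectrum (𝓞 F) → F → F → ZMod 2} (ht : Hilb 2 ζ t)
    (v : HeightOneSpectrum (𝓞 F)) {a D z : F} (ha : a ≠ 0) (hD : D ≠ 0) (hz : z ≠ 0) :
    t v a (D ^ 2 * z) = t v a z := by
  have : Fact (Nat.Prime 2) := ⟨Nat.prime_two⟩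
  rw [ht.anti v a _ ha (mul_ne_zero (pow_ne_zero 2 hD) hz), ht.mul v _ z a (pow_ne_zero 2 hD) hz ha,
    ht.pow v (D ^ 2) a ((hB 2 F v).2.2.1 D hD) ha, zero_add, ← ht.anti v a z ha hz]

end

theorem lok (hDJS : S_DJS) (hCLE : S_CLE) (hSBM : S_SBM) (hCGE : S_CGE) (hSNG : S_SNG) (hTRS : S_TRS)
    (hLCP : S_LCP) (hISQ : S_ISQ) (hIDE : S_IDE) (hVAL : Pool.Agent.Q283.EN.S_VAL) (hBAS : S_BAS) : S_LOK := by
  intro F _ _ i ζ hi hζ t ht y f u r π hB hFrm hf hfin e c hRt hDcl D0 ψ w hD0 hψ t₀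
  have : Fact (Nat.Prime 2) := ⟨Nat.prime_two⟩
  have hRt' : Rt (twi D0 e) := rt_twi hRt hD0
  have hL := fun v => hLCP F i hi (twi D0 e) hRt' v
  have hLoc : LocP y (fun v => AX v (twi D0 e)) :=
    { ne := fun v a b _ h => ⟨h.1, h.2.1⟩
      mul := fun v a b a' b' _ h h' => (hL v).1 a b a' b' h h'
      pow := fun v a b _ ha hb => (hL v).2.2.2 a b (Or.inl ⟨ha, hb⟩) }
  obtain ⟨𝓛, hMem⟩ := hSBM F ζ hζ y f u r π hB (fun v => AX v (twi D0 e)) hLoc
  obtain ⟨hSym, hnd, _⟩ := hDJS f t₀ c w 𝓛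
  have hsing : ∀ z ∈ 𝓛, (dj t₀ c w 𝓛).q z = 0 := by
    refine hSNG F ζ hζ t ht y f u r π hB hFrm hfin e c hRt hDcl (fun v => AX v (twi D0 e)) hLoc ?_ 𝓛 hMem t₀ w
    intro v a b _ hab
    have h1 := hISQ F i ζ hi hζ t ht (twi D0 e) hRt' v a b hab
    rw [df_twi, df_twi, df_twi] at h1
    have e1 : D0 * df e 0 * (D0 * df e 2) = D0 ^ 2 * (df e 0 * df e 2) := by ring
    have e2 : D0 * df e 1 * (D0 * df e 2) = D0 ^ 2 * (df e 1 * df e 2) := by ring
    rw [e1, e2, hil_sq hBAS ht v hab.1 hD0 (mul_ne_zero (df_ne hRt 0) (df_ne hRt 2)),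
      hil_sq hBAS ht v hab.2.1 hD0 (mul_ne_zero (df_ne hRt 1) (df_ne hRt 2))] at h1
    exact h1
  refine ⟨𝓛, hMem, { toSym := hSym, nd := hnd, card := ?_, sing := hsing, tor := ?_ }⟩
  · show Nat.card 𝓛 = Nat.card U2 ^ Fintype.card (Fin f)
    have hU : Nat.card U2 = 4 := by
      rw [Nat.card_prod, Nat.card_zmod]
    rw [hU, Fintype.card_fin]
    refine le_antisymm (hCLE f t₀ c w 𝓛 hsing) ?_
    have h1 := hCGE F ζ hζ y f u r π hB hfin (fun v => AX v (twi D0 e)) hLoc 𝓛 hMem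
      (fun v => 2 * (dv 2 v / 2) + 2) (fun v _ => hIDE F i hi v (twi D0 e) hRt')
    have h2 := sum_val hB.two hfin (hVAL 2 F ζ hζ (fun _ => ⟨i, hi⟩)).2
    rw [← hf] at h2
    have h3 : (4 : ℕ) ^ f = 2 ^ (2 * f) := by
      rw [pow_mul]
      norm_num
    rw [h3]
    exact (Nat.pow_le_pow_right (by norm_num) h2).trans h1
  · intro x
    have e1 : (fun a b : Fin f => Classical.propDecidable (a = b)) = instDecidableEqFin f := Subsingleton.elim _ _
    rw [e1]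
    exact hTRS F ζ hζ y f u r π hB e c hRt hDcl D0 ψ w hD0 hψ (fun v => AX v (twi D0 e))
      (fun v a b _ h => (hL v).2.2.2 a b h) 𝓛 hMem x

end Pool.Agent.Q265.FTL
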