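import Pool.Agent.Q283.FT.Stm4
import Pool.Agent.Q44.JQ.M.Low

/-!
# Project FT (helper283), job TOT: from finitely many vectors to all sets of vectors
-/

set_option autoImplicit false

namespace Pool.Agent.Q265.FT

open Filter Topology Finset
open Q44.JQ (lawc)
open Q44.JQ.M (lawc_nonneg hasSum_lawc hasSum_prod)
open scoped Classical

/-- the bounds of the sum over a set of vectors -/
theorem tsum_bounds {β : Type} {ℓ : β → ℝ} (h0 : ∀ g, 0 ≤ ℓ g) (hs : HasSum ℓ 1) (G : Finset β) (𝒜 : Set β) :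
    ∑ g ∈ G.filter (fun g => g ∈ 𝒜), ℓ g ≤ ∑' g : β, (if g ∈ 𝒜 then ℓ g else 0) ∧
      ∑' g : β, (if g ∈ 𝒜 then ℓ g else 0) ≤
        ∑ g ∈ G.filter (fun g => g ∈ 𝒜), ℓ g + (1 - ∑ g ∈ G, ℓ g) := by
  have s1 : ∀ 𝒜 : Set β, Summable (fun e : β => if e ∈ 𝒜 then ℓ e else 0) := by
    intro 𝒜
    refine Summable.of_nonneg_of_le (fun e => ?_) (fun e => ?_) hs.summable
    · split_ifs
      · exact h0 e
      · exact le_rfl
    · split_ifs
      · exact le_rfl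
      · exact h0 e
  have low : ∀ 𝒜 : Set β, ∑ g ∈ G.filter (fun g => g ∈ 𝒜), ℓ g ≤ ∑' g : β, (if g ∈ 𝒜 then ℓ g else 0) := by
    intro 𝒜
    rw [Finset.sum_filter]
    refine (s1 𝒜).sum_le_tsum G fun g _ => ?_
    split_ifs
    · exact h0 g
    · exact le_rfl
  refine ⟨low 𝒜, ?_⟩
  obtain ⟨ℬ, hℬ⟩ : ∃ ℬ : Set β, ∀ e, e ∈ ℬ ↔ e ∉ 𝒜 := ⟨𝒜ᶜ, fun _ => Iff.rfl⟩
  have hsum : (∑' e : β, if e ∈ 𝒜 then ℓ e else 0) + (∑' e : β, if e ∈ ℬ then ℓ e else 0) = 1 := by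
    rw [← (s1 𝒜).tsum_add (s1 ℬ), ← hs.tsum_eq]
    refine tsum_congr fun e => ?_
    by_cases he : e ∈ 𝒜
    · rw [if_pos he, if_neg (fun h => (hℬ e).1 h he), add_zero]
    · rw [if_neg he, if_pos ((hℬ e).2 he), zero_add]
  have h1 := low ℬ
  have h2 : ∑ g ∈ G.filter (fun g => g ∈ 𝒜), ℓ g + ∑ g ∈ G.filter (fun g => g ∈ ℬ), ℓ g = ∑ g ∈ G, ℓ g := by
    rw [Finset.sum_filter, Finset.sum_filter, ← Finset.sum_add_distrib]
    refine Finset.sum_congr rfl fun e _ => ?_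
    by_cases he : e ∈ 𝒜
    · rw [if_pos he, if_neg (fun h => (hℬ e).1 h he), add_zero]
    · rw [if_neg he, if_pos ((hℬ e).2 he), zero_add]
  linarith

/-- the number of the elements with values in a finite set -/
theorem card_fib {α κ : Type} [Fintype κ] (T : Finset α) (r : α → κ → ℕ) (H : Finset (κ → ℕ)) :
    ((T.filter (fun q => r q ∈ H)).card : ℝ) = ∑ g ∈ H, ((T.filter (fun q => r q = g)).card : ℝ) := by
  rw [← Nat.cast_sum]
  apply congrArg
  rw [Finset.card_eq_sum_card_fiberwise (s := T.filter (fun q => r q ∈ H)) (t := H) (f := r)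
    (fun q hq => (mem_filter.1 hq).2)]
  refine Finset.sum_congr rfl fun g hg => ?_
  rw [Finset.filter_filter]
  refine congrArg Finset.card (Finset.filter_congr fun q _ => ?_)
  constructor
  · exact fun h => h.2
  · exact fun h => ⟨by rw [h]; exact hg, h⟩

theorem tot : Pool.Agent.Q283.FT.S_TOT := by
  intro κ _ c ε hε
  obtain ⟨ℓ, hℓ⟩ : ∃ ℓ : (κ → ℕ) → ℝ, ℓ = fun g => ∏ l, lawc (c l) (g l) := ⟨_, rfl⟩
  have hs : HasSum ℓ 1 := by
    rw [hℓ]
    exact hasSum_prod (f := fun l e => lawc (c l) e) (fun l e => lawc_nonneg _ _) (fun l => hasSum_lawc _)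
  have h0 : ∀ g : κ → ℕ, 0 ≤ ℓ g := by
    intro g
    rw [hℓ]
    exact prod_nonneg fun l _ => lawc_nonneg _ _
  have h1 : ∃ G : Finset (κ → ℕ), 1 - ε / 4 < ∑ g ∈ G, ℓ g := by
    by_contra hcon
    push Not at hcon
    have h2 := hs.summable.tsum_le_of_sum_le hcon
    rw [hs.tsum_eq] at h2
    linarith
  obtain ⟨G, hG⟩ := h1
  have hG1 : ∑ g ∈ G, ℓ g ≤ 1 := sum_le_hasSum _ (fun _ _ => h0 _) hs
  obtain ⟨n, hn⟩ : ∃ n : ℝ, n = (G.card : ℝ) := ⟨_, rfl⟩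
  have hn0 : 0 ≤ n := by rw [hn]; positivity
  obtain ⟨δ, hδ⟩ : ∃ δ : ℝ, δ = ε / (4 * (n + 1)) := ⟨_, rfl⟩
  have hδ0 : 0 < δ := by rw [hδ]; positivity
  have hδ1 : n * δ ≤ ε / 4 := by
    have : (n + 1) * δ = ε / 4 := by
      rw [hδ]
      field_simp
    linarith [mul_comm n δ, add_mul n 1 δ]
  refine ⟨G, δ, hδ0, fun α T r hyp 𝒜 => ?_⟩
  have hyp' : ∀ g ∈ G, |((T.filter (fun q => r q = g)).card : ℝ) - ℓ g * (T.card : ℝ)| ≤ δ * (T.card : ℝ) := by
    intro g hg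
    rw [hℓ]
    exact hyp g hg
  have goal' : |((T.filter (fun q => r q ∈ 𝒜)).card : ℝ) -
      (∑' g : κ → ℕ, if g ∈ 𝒜 then ℓ g else 0) * (T.card : ℝ)| ≤ ε * (T.card : ℝ) := by
    obtain ⟨N, hN⟩ : ∃ N : ℝ, N = (T.card : ℝ) := ⟨_, rfl⟩
    have hN0 : 0 ≤ N := by rw [hN]; positivity
    rw [← hN]
    rw [← hN] at hyp'
    -- sums over subsets of G
    have hsub : ∀ H : Finset (κ → ℕ), H ⊆ G →
        |((T.filter (fun q => r q ∈ H)).card : ℝ) - (∑ g ∈ H, ℓ g) * N| ≤ ε / 4 * N := by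
      intro H hH
      rw [card_fib, sum_mul, ← sum_sub_distrib]
      refine (abs_sum_le_sum_abs _ _).trans ?_
      refine (sum_le_sum fun g hg => hyp' g (hH hg)).trans ?_
      rw [sum_const, nsmul_eq_mul]
      have h2 : (H.card : ℝ) ≤ n := by
        rw [hn]
        exact_mod_cast card_le_card hH
      calc (H.card : ℝ) * (δ * N) ≤ n * (δ * N) := mul_le_mul_of_nonneg_right h2 (by positivity)
        _ = (n * δ) * N := by ring
        _ ≤ ε / 4 * N := mul_le_mul_of_nonneg_right hδ1 hN0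
    have hA := abs_le.1 (hsub (G.filter (fun g => g ∈ 𝒜)) (filter_subset _ _))
    have hB := abs_le.1 (hsub G (Finset.Subset.refl _))
    obtain ⟨b1, b2⟩ := tsum_bounds h0 hs G 𝒜
    obtain ⟨L, hL⟩ : ∃ L : ℝ, L = ∑' g : κ → ℕ, (if g ∈ 𝒜 then ℓ g else 0) := ⟨_, rfl⟩
    obtain ⟨S, hS⟩ : ∃ S : ℝ, S = ∑ g ∈ G.filter (fun g => g ∈ 𝒜), ℓ g := ⟨_, rfl⟩
    obtain ⟨R, hR⟩ : ∃ R : ℝ, R = ∑ g ∈ G, ℓ g := ⟨_, rfl⟩
    rw [← hL, ← hS] at b1 b2
    rw [← hR] at b2 hB hG hG1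
    rw [← hS] at hA
    rw [← hL]
    -- the numbers
    have c1 : (T.filter (fun q => r q ∈ G.filter (fun g => g ∈ 𝒜))).card ≤ (T.filter (fun q => r q ∈ 𝒜)).card := by
      refine card_le_card fun q hq => ?_
      rw [mem_filter] at hq ⊢
      exact ⟨hq.1, (mem_filter.1 hq.2).2⟩
    have c2 : (T.filter (fun q => r q ∈ 𝒜)).card + (T.filter (fun q => r q ∈ G)).card ≤
        (T.filter (fun q => r q ∈ G.filter (fun g => g ∈ 𝒜))).card + T.card := by
      have h3 : (T.filter (fun q => r q ∈ 𝒜)) ∩ (T.filter (fun q => r q ∈ G)) =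
          T.filter (fun q => r q ∈ G.filter (fun g => g ∈ 𝒜)) := by
        ext q
        simp only [mem_inter, mem_filter]
        tauto
      have h4 := card_union_add_card_inter (T.filter (fun q => r q ∈ 𝒜)) (T.filter (fun q => r q ∈ G))
      rw [h3] at h4
      have h5 : ((T.filter (fun q => r q ∈ 𝒜)) ∪ (T.filter (fun q => r q ∈ G))).card ≤ T.card :=
        card_le_card (union_subset (filter_subset _ _) (filter_subset _ _))
      omega
    have d1 : ((T.filter (fun q => r q ∈ G.filter (fun g => g ∈ 𝒜))).card : ℝ) ≤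
        ((T.filter (fun q => r q ∈ 𝒜)).card : ℝ) := by exact_mod_cast c1
    have d2 : ((T.filter (fun q => r q ∈ 𝒜)).card : ℝ) + ((T.filter (fun q => r q ∈ G)).card : ℝ) ≤
        ((T.filter (fun q => r q ∈ G.filter (fun g => g ∈ 𝒜))).card : ℝ) + N := by
      rw [hN]
      exact_mod_cast c2
    have e1 : S * N ≤ L * N := mul_le_mul_of_nonneg_right b1 hN0
    have e2 : L * N ≤ (S + ε / 4) * N := mul_le_mul_of_nonneg_right (by linarith) hN0
    have e3 : (1 - ε / 4) * N ≤ R * N := mul_le_mul_of_nonneg_right hG.le hN0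
    rw [abs_le]
    have e4 : 0 ≤ ε * N := by positivity
    constructor
    · linarith [hA.1]
    · linarith [hA.2, hB.1]
  rw [hℓ] at goal'
  exact goal'

end Pool.Agent.Q265.FT
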